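import Pool.Agent.Helper89.Cont4

/-!
# Continua irreducible about a finite set
-/

set_option autoImplicit false

universe u

namespace Pool.Agent.Results.MP_0d1ae2_gt.IrreducibleAboutFinite

open Set

/-- For a continuum `M` the following are equivalent: `M` is irreducible about some finite set;
`M` is not the union of a chain of proper subcontinua; `M` is not the union of a countable chain of
proper subcontinua; `M` is not the union of an increasing sequence of proper subcontinua. -/
theorem result (M : Type u) [MetricSpace M] [CompactSpace M] [ConnectedSpace M] :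
    List.TFAE [
      ∃ F : Set M, F.Finite ∧ ∀ K : Set M, IsClosed K → IsConnected K → F ⊆ K → K = univ,
      ¬ ∃ C : Set (Set M), IsChain (· ⊆ ·) C ∧
        (∀ K ∈ C, IsClosed K ∧ IsConnected K ∧ K ≠ univ) ∧ ⋃₀ C = univ,
      ¬ ∃ C : Set (Set M), C.Countable ∧ IsChain (· ⊆ ·) C ∧
        (∀ K ∈ C, IsClosed K ∧ IsConnected K ∧ K ≠ univ) ∧ ⋃₀ C = univ,
      ¬ ∃ G : ℕ → Set M, Monotone G ∧
        (∀ n, IsClosed (G n) ∧ IsConnected (G n) ∧ G n ≠ univ) ∧ ⋃ n, G n = univ] := by
  tfae_have 1 → 2 := by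
    rintro ⟨F, hF, h⟩ ⟨C, hC, hK, hU⟩
    have hne : C.Nonempty := by
      by_contra hn
      rw [not_nonempty_iff_eq_empty.1 hn, sUnion_empty] at hU
      exact empty_ne_univ hU
    obtain ⟨K, hKC, hFK⟩ := DirectedOn.exists_mem_subset_of_finite_of_subset_sUnion hne
      hC.directedOn hF (hU ▸ subset_univ F)
    obtain ⟨h1, h2, h3⟩ := hK K hKC
    exact h3 (h K h1 h2 hFK)
  tfae_have 2 → 3 := by
    rintro h ⟨C, -, hC, hK, hU⟩
    exact h ⟨C, hC, hK, hU⟩
  tfae_have 3 → 4 := by
    rintro h ⟨G, hG, hK, hU⟩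
    refine h ⟨range G, countable_range G, ?_, ?_, ?_⟩
    · rintro _ ⟨n, rfl⟩ _ ⟨m, rfl⟩ _
      rcases le_total n m with h | h
      · exact Or.inl (hG h)
      · exact Or.inr (hG h)
    · rintro _ ⟨n, rfl⟩
      exact hK n
    · rw [sUnion_range]
      exact hU
  tfae_have 4 → 1 := by
    intro h
    apply Pool.Agent.H89Cont.main
    intro G hmono hG
    by_contra hcon
    push Not at hcon
    refine h ⟨G, hmono, hG, ?_⟩
    ext x
    simp only [mem_iUnion, mem_univ, iff_true]
    exact hcon x
  tfae_finish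

end Pool.Agent.Results.MP_0d1ae2_gt.IrreducibleAboutFinite
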